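import Pool.Agent.L5helper57.LB.Defs
import Pool.Agent.L5helper57.ED.Defs

/-!
# Circuits with linear algebra over several fields for 3-CNF formulas: definitions
-/

set_option autoImplicit false

namespace Pool.Agent.L5helper57.SE

open Finset Matrix

open Pool.Agent.L5helper57.ETH (Clause renameClause)
open Pool.Agent.L5helper57.LB (Pen)

/-- A circuit with `S` gates, whose values are bits, for 3-CNF formulas in `v` variables, with linear
algebra over the fields `K q`. The gate `h` has for each `q` a number of `t` matrices of size `N × N`
over `K q`, whose entries are polynomials of degree at most `D` in the indicators of the clauses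
plus linear forms in the values of earlier gates. Its value is a function `fn h` of all these
matrices, which may be any function that does not change when the matrices over each of the fields
are replaced by simultaneously similar ones. The output is the value of the gate `out`. -/
structure Circuit {κ : Type} (K : κ → Type) [∀ q, Field (K q)] (v S N t D : ℕ) where
  /-- the matrices of the gates -/
  gate : ∀ q, Fin S → Fin t → Pen (Clause v) (K q) S N
  /-- the functions of the gates -/
  fn : Fin S → (∀ q, Fin t → Matrix (Fin N) (Fin N) (K q)) → Bool
  /-- the output gate -/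
  out : Fin S
  similar : ∀ (h : Fin S) (M M' : ∀ q, Fin t → Matrix (Fin N) (Fin N) (K q)),
    (∀ q, ∃ U U' : Matrix (Fin N) (Fin N) (K q), U * U' = 1 ∧ ∀ a, M' q a = U * M q a * U') →
      fn h M' = fn h M
  acyclic : ∀ q h a h', (gate q h a).wire h' ≠ 0 → h' < h
  deg : ∀ q h a i j, ((gate q h a).inp i j).totalDegree ≤ D

/-- The group which is generated by the three-cycles of variables inside the sets `B j`. -/
def blockGroup {v s : ℕ} (B : Fin s → Finset (Fin v)) : Subgroup (Equiv.Perm (Fin v)) :=
  Subgroup.closure {π | π.IsThreeCycle ∧ ∃ j, ∀ i, i ∉ B j → π i = i}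

section

variable {κ : Type} {K : κ → Type} [∀ q, Field (K q)] {v S N t D : ℕ}

/-- The value of the gate `h` on the formula `F`. -/
noncomputable def Circuit.val (C : Circuit K v S N t D) (F : Clause v → Bool) (h : Fin S) : Bool :=
  C.fn h fun q a => (C.gate q h a).eval F (fun h' => if _h : h' < h then C.val F h' else false)
termination_by h.val
decreasing_by exact _h

/-- The output: the value of the gate `out`. -/
noncomputable def Circuit.output (C : Circuit K v S N t D) (F : Clause v → Bool) : Bool :=
  C.val F C.out

/-- The permutation `σ` of the gates together with the linear maps `U q h` from the space `K q ^ N` of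
the gate `h` to the space of `σ h` is a symmetry of the circuit over the renaming `π` of the
variables: the function of `σ h` is that of `h`, the matrices of `σ h` are the matrices of `h` for the
renamed formula, carried over by the linear maps, and the output gate is fixed. -/
def Circuit.IsSymmetry (C : Circuit K v S N t D) (π : Equiv.Perm (Fin v))
    (σ : Equiv.Perm (Fin S)) (U : ∀ q, Fin S → Matrix (Fin N) (Fin N) (K q)) : Prop :=
  (∀ h, C.fn (σ h) = C.fn h) ∧
  (∀ (q : κ) (h : Fin S) (a : Fin t) (F : Clause v → Bool) (y : Fin S → Bool),
    (C.gate q (σ h) a).eval F y * U q h =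
      U q h * (C.gate q h a).eval (fun c => F (renameClause π c)) (fun h' => y (σ h'))) ∧
  σ C.out = C.out

/-- The group `blockGroup B` acts on the circuit by symmetries: `π` permutes the gates by `σ π` and
acts on the sum of the spaces `K q ^ N` of all gates by the maps `U q π h` from the space of `h` to
the space of `σ π h`, and this is an action and a linear representation. -/
def Circuit.Acts (C : Circuit K v S N t D) {s : ℕ} (B : Fin s → Finset (Fin v)) : Prop :=
  ∃ (σ : Equiv.Perm (Fin v) → Equiv.Perm (Fin S))
    (U : ∀ q, Equiv.Perm (Fin v) → Fin S → Matrix (Fin N) (Fin N) (K q)),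
    (∀ π ∈ blockGroup B, C.IsSymmetry π (σ π) (fun q => U q π)) ∧
    (∀ π ∈ blockGroup B, ∀ π' ∈ blockGroup B, σ (π * π') = σ π * σ π' ∧
      ∀ q h, U q (π * π') h = U q π (σ π' h) * U q π' h) ∧
    ∀ q h, U q 1 h = 1

end

end Pool.Agent.L5helper57.SE
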