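import Pool.Agent.L5helper57.SI.Gate

/-!
# Similarity of the matrices of a gate: the general engine
-/

set_option autoImplicit false
set_option linter.unusedSectionVars false
set_option linter.unusedVariables false

namespace Pool.Agent.L5helper57.SE0

open Finset Matrix Pool.Agent.L5helper57.EP
open Pool.Agent.L5helper57.LB (Pen sk sk_zero sk_one sk_add sk_mul_self sum_sk RpK hatK hat_invK
  hat_mapK hat_shiftK SP card_blk_ne wt_boundK rot_bound cardne)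
open Pool.Agent.L5helper57.ED (Rhs wt_zero)
open Pool.Agent.L5helper57.LA0 (sp wtB_add_le)
open Pool.Agent.L5helper57.LB0 (eval_congr ann mem_ann ann_add card_ann_le mem_of_ann joint_support
  DepOn dep_supp sp_matrix)
open Pool.Agent.L5helper57.SI0 (gm val_eq sk_inj E_mul_P sum_E Sop Sop_mul_self Sop_sim)

variable {κ : Type} {K : κ → Type} [∀ q, Field (K q)] {ι : Type} {n r S N t D : ℕ}

/-- an action of a group on a circuit -/
structure Act (C : SI.Circuit K ι n r S N t D) {Γ : Type} [Group Γ] (π : Γ → ι → ι) where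
  /-- the permutations of the gates -/
  σ : Γ →* Equiv.Perm (Fin S)
  /-- the linear maps -/
  U : ∀ q, Γ → Fin S → Matrix (Fin N) (Fin N) (K q)
  U_one : ∀ q h, U q 1 h = 1
  U_mul : ∀ q ρ ρ' h, U q (ρ * ρ') h = U q ρ (σ ρ' h) * U q ρ' h
  fn_eq : ∀ ρ h, C.fn (σ ρ h) = C.fn h
  gate_eq : ∀ (q : κ) (ρ : Γ) (h : Fin S) (a : Fin t) (x : ι → Bool)
    (y : Fin S → Bool), (C.gate q (σ ρ h) a).eval x y * U q ρ h =
      U q ρ h * (C.gate q h a).eval (fun p => x (π ρ p)) (fun h' => y (σ ρ h'))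

variable {C : SI.Circuit K ι n r S N t D} {Γ : Type} [Group Γ] {π : Γ → ι → ι} (A : Act C π)

lemma U_inv (q : κ) (ρ : Γ) (h : Fin S) : A.U q ρ⁻¹ (A.σ ρ h) * A.U q ρ h = 1 := by
  rw [← A.U_mul, inv_mul_cancel, A.U_one]

lemma U_inv' (q : κ) (ρ : Γ) (h : Fin S) : A.U q ρ h * A.U q ρ⁻¹ (A.σ ρ h) = 1 :=
  mul_eq_one_comm.1 (U_inv A q ρ h)

lemma val_aut (x : ι → Bool) (ρ : Γ) (g : Fin S) :
    C.val (fun p => x (π ρ p)) g = C.val x (A.σ ρ g) := by
  induction g using WellFoundedLT.induction with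
  | ind g ih =>
    rw [val_eq, val_eq, A.fn_eq]
    symm
    refine C.similar g _ _ fun q => ⟨A.U q ρ g, A.U q ρ⁻¹ (A.σ ρ g), U_inv' A q ρ g, fun a => ?_⟩
    have h1 := A.gate_eq q ρ g a x (C.val x)
    have h2 : gm C q g (fun p => x (π ρ p)) a =
        (C.gate q g a).eval (fun p => x (π ρ p)) (fun h' => C.val x (A.σ ρ h')) :=
      eval_congr _ _ fun i hi => ih i (C.acyclic q g a i hi)
    rw [h2, ← h1, Matrix.mul_assoc, U_inv', Matrix.mul_one]
    rfl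

lemma gm_aut (q : κ) (ρ : Γ) (g : Fin S) (x : ι → Bool) (a : Fin t) :
    gm C q (A.σ ρ g) x a * A.U q ρ g = A.U q ρ g * gm C q g (fun p => x (π ρ p)) a := by
  have h1 := A.gate_eq q ρ g a x (C.val x)
  have h2 : gm C q g (fun p => x (π ρ p)) a =
      (C.gate q g a).eval (fun p => x (π ρ p)) (fun h' => C.val x (A.σ ρ h')) :=
    eval_congr _ _ fun i hi => val_aut A x ρ i
  rw [h2]
  exact h1

/-- translations and rotations -/
structure Blk (Γ : Type) [Group Γ] (b : ℕ) where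
  /-- the translations -/
  tE : (Fin b → K4) → Γ
  /-- the rotations -/
  rE : Fin b → Γ
  zero : tE 0 = 1
  add : ∀ T T', tE (T + T') = tE T * tE T'
  conj : ∀ β T, rE β * tE T = tE (tauB β T) * rE β

variable {b : ℕ} (Bk : Blk Γ b)

section big

variable (q : κ)

/-- the linear representation on the sum of the spaces of the gates -/
noncomputable def Rr (ρ : Γ) : Module.End (K q) (Fin S → Fin N → K q) where
  toFun v := fun h => A.U q ρ ((A.σ ρ)⁻¹ h) *ᵥ v ((A.σ ρ)⁻¹ h)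
  map_add' v w := by
    funext h
    rw [Pi.add_apply, Matrix.mulVec_add]
    rfl
  map_smul' c v := by
    funext h
    rw [Pi.smul_apply, Matrix.mulVec_smul]
    rfl

lemma Rr_apply (ρ : Γ) (v : Fin S → Fin N → K q) (h : Fin S) :
    Rr A q ρ v h = A.U q ρ ((A.σ ρ)⁻¹ h) *ᵥ v ((A.σ ρ)⁻¹ h) := rfl

lemma Rr_one : Rr A q 1 = 1 := by
  refine LinearMap.ext fun v => funext fun h => ?_
  rw [Rr_apply, A.U_one, Matrix.one_mulVec, map_one]
  rfl

lemma Rr_mul (ρ ρ' : Γ) : Rr A q (ρ * ρ') = Rr A q ρ * Rr A q ρ' := by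
  refine LinearMap.ext fun v => funext fun h => ?_
  rw [Rr_apply, Module.End.mul_apply, Rr_apply, Rr_apply, Matrix.mulVec_mulVec, A.U_mul]
  have h1 : (A.σ (ρ * ρ'))⁻¹ h = (A.σ ρ')⁻¹ ((A.σ ρ)⁻¹ h) := by
    rw [map_mul, _root_.mul_inv_rev]
    rfl
  have h2 : A.σ ρ' ((A.σ ρ')⁻¹ ((A.σ ρ)⁻¹ h)) = (A.σ ρ)⁻¹ h :=
    (A.σ ρ').apply_symm_apply _
  rw [h1, h2]

/-- the representation of the translations -/
noncomputable def bigRp : RpK (K q) (Fin b → K4) (Fin S → Fin N → K q) where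
  P T := Rr A q (Bk.tE T)
  map_zero := by rw [Bk.zero, Rr_one]
  map_add x y := by rw [Bk.add, Rr_mul]

/-- weights of characters -/
theorem big_wt (h2 : (2 : K q) ≠ 0) {ψ : Fin b → K4}
    (hψ : (bigRp A Bk q).E (blkP (Fin b)) ψ ≠ 0) : 3 ^ wtB ψ ≤ S * N := by
  have h1 := wt_boundK h2 (bigRp A Bk q) (fun β => Rr A q (Bk.rE β))
    (fun β => Rr A q (Bk.rE β)⁻¹)
    (fun β => by rw [← Rr_mul, mul_inv_cancel, Rr_one])
    (fun β => by rw [← Rr_mul, inv_mul_cancel, Rr_one])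
    (fun β T => by
      show Rr A q (Bk.rE β) * Rr A q (Bk.tE T) = Rr A q (Bk.tE (tauB β T)) * Rr A q (Bk.rE β)
      rw [← Rr_mul, ← Rr_mul, Bk.conj]) hψ
  refine h1.trans_eq ?_
  rw [Module.finrank_pi_fintype]
  simp

end big

/-- the stabiliser of a gate -/
def Stab (g : Fin S) : AddSubgroup (Fin b → K4) where
  carrier := {T | A.σ (Bk.tE T) g = g}
  add_mem' := by
    intro x y ha hb
    show A.σ (Bk.tE (x + y)) g = g
    have hb' : A.σ (Bk.tE y) g = g := hb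
    rw [Bk.add, map_mul, Equiv.Perm.mul_apply, hb']
    exact ha
  zero_mem' := by
    show A.σ (Bk.tE 0) g = g
    rw [Bk.zero, map_one]
    rfl
  neg_mem' := by
    intro x h
    rw [(blkP (Fin b)).neg_eq x]
    exact h

lemma mem_stab {g : Fin S} {T : Fin b → K4} : T ∈ Stab A Bk g ↔ A.σ (Bk.tE T) g = g := Iff.rfl

lemma stab_card (g : Fin S) : (ann (blkP (Fin b)) (Stab A Bk g)).card ≤ S := by
  refine card_ann_le _ _ (fun T => A.σ (Bk.tE T) g) fun T T' h => ?_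
  rw [mem_stab]
  have h' : A.σ (Bk.tE T) g = A.σ (Bk.tE T') g := h
  rw [add_comm, Bk.add, map_mul, Equiv.Perm.mul_apply, h', ← Equiv.Perm.mul_apply, ← map_mul,
    ← Bk.add, (blkP (Fin b)).add_self, Bk.zero, map_one]
  rfl

lemma ann_rot {g : Fin S} {χ : Fin b → K4} (h : χ ∈ ann (blkP (Fin b)) (Stab A Bk g))
    (β : Fin b) : Function.update χ β (tau.symm (χ β)) ∈
      ann (blkP (Fin b)) (Stab A Bk (A.σ (Bk.rE β) g)) := by
  rw [mem_ann] at h ⊢
  intro T hT'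
  obtain ⟨T', rfl⟩ := (tauB β).surjective T
  rw [blkP_tau]
  refine h T' ?_
  rw [mem_stab] at hT' ⊢
  rw [← Equiv.Perm.mul_apply, ← map_mul, ← Bk.conj, map_mul, Equiv.Perm.mul_apply] at hT'
  exact (A.σ (Bk.rE β)).injective hT'

lemma ann_wt {g : Fin S} {χ : Fin b → K4} (h : χ ∈ ann (blkP (Fin b)) (Stab A Bk g)) :
    3 ^ wtB χ ≤ S * S := by
  classical
  obtain ⟨s, hs, hs'⟩ := rot_bound
    (p := fun χ => ∃ g : Fin S, χ ∈ ann (blkP (Fin b)) (Stab A Bk g))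
    (fun φ β ⟨g, hg⟩ => ⟨_, ann_rot A Bk hg β⟩) ⟨g, h⟩
  rw [← hs]
  have h1 : s ⊆ (univ : Finset (Fin S)).biUnion fun g => ann (blkP (Fin b)) (Stab A Bk g) := by
    intro φ hφ
    rw [mem_biUnion]
    obtain ⟨g', hg'⟩ := hs' φ hφ
    exact ⟨g', mem_univ _, hg'⟩
  refine (card_le_card h1).trans (card_biUnion_le.trans ?_)
  refine (sum_le_sum fun g _ => stab_card A Bk g).trans ?_
  rw [sum_const, card_univ, Fintype.card_fin, smul_eq_mul]

/-- **Supports of gates.** -/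
theorem exists_support {W : ℕ} (hW : S * S < 3 ^ (W + 1)) (g : Fin S) :
    ∃ Z : Finset (Fin b), Z.card ≤ 2 * W ∧
      ∀ T : Fin b → K4, (∀ β ∈ Z, T β = 0) → A.σ (Bk.tE T) g = g := by
  classical
  have h1 := joint_support (ann (blkP (Fin b)) (Stab A Bk g)) (w := W)
    ⟨0, by
      rw [mem_ann]
      exact fun T _ => (blkP (Fin b)).zero_left T⟩
    (fun χ hχ χ' hχ' => ann_add _ _ hχ hχ') (fun χ hχ => by
      have h2 := ann_wt A Bk hχ
      have h3 := (Nat.pow_lt_pow_iff_right (by norm_num : 1 < 3)).1 (h2.trans_lt hW)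
      omega)
  refine ⟨univ.filter fun β : Fin b => ∃ χ ∈ ann (blkP (Fin b)) (Stab A Bk g), χ β ≠ 0,
    h1, fun T hT' => ?_⟩
  rw [← mem_stab]
  refine mem_of_ann (blkP (Fin b)) _ fun χ hχ => ?_
  rw [blkP_b]
  refine sum_eq_zero fun β _ => ?_
  by_cases h : χ β = 0
  · rw [h]; simp
  · rw [hT' β (mem_filter.2 ⟨mem_univ _, χ, hχ, h⟩)]; simp

/-- deleting the places of `Z` -/
def cut (Z : Finset (Fin b)) (T : Fin b → ZMod 2) : Fin b → ZMod 2 :=
  fun β => if β ∈ Z then 0 else T β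

/-- the translations by the first unit vector -/
def emb (z : Fin b → ZMod 2) : Fin b → K4 := fun β => (z β, 0)

section cut

variable (Z : Finset (Fin b))

lemma cut_mem (T : Fin b → ZMod 2) (β : Fin b) (h : β ∈ Z) : emb (cut Z T) β = 0 := by
  unfold emb cut
  rw [if_pos h]
  rfl

lemma cut_zero : cut Z 0 = 0 := by
  funext β
  unfold cut
  split_ifs <;> rfl

lemma cut_add (T T' : Fin b → ZMod 2) : cut Z (T + T') = cut Z T + cut Z T' := by
  funext β
  rw [Pi.add_apply]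
  unfold cut
  split_ifs
  · rw [add_zero]
  · rfl

lemma emb_zero : emb (0 : Fin b → ZMod 2) = 0 := rfl

lemma emb_add (z z' : Fin b → ZMod 2) : emb (z + z') = emb z + emb z' := by
  funext β
  exact Prod.ext rfl (add_zero (0 : ZMod 2)).symm

lemma cut_dot (χ T : Fin b → ZMod 2) :
    (dotP (Fin b)).b (cut Z χ) T = (dotP (Fin b)).b χ (cut Z T) := by
  rw [dotP_b, dotP_b]
  refine sum_congr rfl fun β _ => ?_
  unfold cut
  split_ifs
  · simp
  · rfl

lemma emb_dot (ψ : Fin b → K4) (z : Fin b → ZMod 2) :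
    (blkP (Fin b)).b ψ (emb z) = (dotP (Fin b)).b (fun β => (ψ β).1) z := by
  rw [blkP_b, dotP_b]
  refine sum_congr rfl fun β _ => ?_
  unfold emb
  simp

lemma wt_cut_le (χ : Fin b → ZMod 2) : wt (cut Z χ) ≤ wt χ := by
  unfold wt
  refine card_le_card fun β hβ => ?_
  rw [mem_filter] at hβ ⊢
  refine ⟨mem_univ _, fun h => hβ.2 ?_⟩
  unfold cut
  rw [h, ite_self]

lemma wt_fst_le (ψ : Fin b → K4) : wt (fun β => (ψ β).1) ≤ wtB ψ := by
  unfold wt wtB
  refine card_le_card fun β hβ => ?_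
  rw [mem_filter] at hβ ⊢
  refine ⟨mem_univ _, fun h => hβ.2 ?_⟩
  show (ψ β).1 = 0
  rw [h]
  rfl

lemma wt_le_cut (χ : Fin b → ZMod 2) : wt χ ≤ wt (cut Z χ) + Z.card := by
  classical
  unfold wt
  refine (card_le_card ?_).trans (card_union_le _ _)
  intro β hβ
  rw [mem_filter] at hβ
  rw [mem_union]
  by_cases h : β ∈ Z
  · exact Or.inr h
  · refine Or.inl (mem_filter.2 ⟨mem_univ _, ?_⟩)
    unfold cut
    rw [if_neg h]
    exact hβ.2

end cut

section loc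

variable (q : κ) {g : Fin S} {Z : Finset (Fin b)}
  (hg : ∀ T : Fin b → K4, (∀ β ∈ Z, T β = 0) → A.σ (Bk.tE T) g = g)

/-- the representation on the space of the gate `g` -/
noncomputable def locRp : RpK (K q) (Fin b → ZMod 2) (Fin N → K q) where
  P z := Matrix.toLinAlgEquiv' (A.U q (Bk.tE (emb (cut Z z))) g)
  map_zero := by rw [cut_zero, emb_zero, Bk.zero, A.U_one, map_one]
  map_add x y := by rw [cut_add, emb_add, Bk.add, A.U_mul, hg _ (cut_mem Z y), map_mul]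

lemma locRp_P (z : Fin b → ZMod 2) :
    (locRp A Bk q hg).P z = Matrix.toLinAlgEquiv' (A.U q (Bk.tE (emb (cut Z z))) g) := rfl

lemma single_P (ψ z : Fin b → ZMod 2) (v : Fin N → K q) :
    (bigRp A Bk q).P (emb (cut Z z)) (Pi.single g ((locRp A Bk q hg).E (dotP (Fin b)) ψ v)) =
      sk (K q) ((dotP (Fin b)).b ψ z) •
        Pi.single g ((locRp A Bk q hg).E (dotP (Fin b)) ψ v) := by
  have hfix : A.σ (Bk.tE (emb (cut Z z))) g = g := hg _ (cut_mem Z z)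
  have hfix' : (A.σ (Bk.tE (emb (cut Z z))))⁻¹ g = g := by
    rw [Equiv.Perm.inv_eq_iff_eq]
    exact hfix.symm
  have h1 := congrArg (fun f => f v) ((locRp A Bk q hg).P_mul_E (dotP (Fin b)) ψ z)
  rw [Module.End.mul_apply, LinearMap.smul_apply, locRp_P] at h1
  funext h
  show Rr A q (Bk.tE (emb (cut Z z))) _ h = _
  rw [Rr_apply, Pi.smul_apply]
  by_cases hh : h = g
  · subst hh
    rw [hfix', Pi.single_eq_same]
    exact h1
  · have h2 : (A.σ (Bk.tE (emb (cut Z z))))⁻¹ h ≠ g := by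
      intro h3
      apply hh
      rw [Equiv.Perm.inv_eq_iff_eq] at h3
      rw [h3, hfix]
    rw [Pi.single_eq_of_ne h2, Pi.single_eq_of_ne hh, Matrix.mulVec_zero, smul_zero]

/-- characters of the space of a gate have small weight -/
theorem loc_wt (h2 : (2 : K q) ≠ 0) {ψ : Fin b → ZMod 2}
    (hψ : (locRp A Bk q hg).E (dotP (Fin b)) ψ ≠ 0) : 3 ^ wt ψ ≤ S * N := by
  obtain ⟨v, hv⟩ : ∃ v, (locRp A Bk q hg).E (dotP (Fin b)) ψ v ≠ 0 := by
    by_contra hcon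
    push Not at hcon
    exact hψ (LinearMap.ext hcon)
  obtain ⟨w, hw⟩ : ∃ w : Fin S → Fin N → K q,
    w = Pi.single g ((locRp A Bk q hg).E (dotP (Fin b)) ψ v) := ⟨_, rfl⟩
  have hP : ∀ z, (bigRp A Bk q).P (emb (cut Z z)) w = sk (K q) ((dotP (Fin b)).b ψ z) • w := by
    intro z
    rw [hw]
    exact single_P A Bk q hg ψ z v
  have hw0 : w ≠ 0 := by
    rw [hw]
    intro h
    apply hv
    have := congrFun h g
    rw [Pi.single_eq_same] at this
    exact this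
  obtain ⟨χ, hχ⟩ : ∃ χ, (bigRp A Bk q).E (blkP (Fin b)) χ w ≠ 0 := by
    by_contra hcon
    push Not at hcon
    apply hw0
    have h1 := congrArg (fun f => f w) (sum_E (bigRp A Bk q) (blkP (Fin b)) h2 (card_blk_ne h2))
    rw [LinearMap.sum_apply, sum_congr rfl fun χ _ => hcon χ, sum_const_zero] at h1
    exact h1.symm
  have h3 : ∀ z, (dotP (Fin b)).b (fun β => (χ β).1) (cut Z z) = (dotP (Fin b)).b ψ z := by
    intro z
    rw [← emb_dot]
    refine sk_inj (K := K q) h2 ?_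
    have h4 := congrArg (fun f => f w)
      (E_mul_P (bigRp A Bk q) (blkP (Fin b)) χ (emb (cut Z z)))
    rw [Module.End.mul_apply, LinearMap.smul_apply, hP, map_smul] at h4
    exact (smul_left_injective (K q) hχ h4).symm
  have h4 : ψ = cut Z (fun β => (χ β).1) := by
    rw [← (dotP (Fin b)).add_eq_zero_iff]
    by_contra hne
    obtain ⟨z, hz⟩ := (dotP (Fin b)).nondeg _ hne
    apply hz
    rw [(dotP (Fin b)).add_left, cut_dot, h3]
    have h5 : ∀ a : ZMod 2, a + a = 0 := by decide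
    exact h5 _
  refine le_trans (Nat.pow_le_pow_right (by norm_num) ?_) (big_wt A Bk q h2 (ψ := χ) ?_)
  · rw [h4]
    exact (wt_cut_le Z _).trans (wt_fst_le χ)
  · intro h5
    rw [h5] at hχ
    exact hχ rfl

end loc

section signs

variable {m : ℕ} {c : Rhs m → Fin b → ZMod 2} {Z : Finset (Fin b)} {R W : ℕ}

lemma wt_add_le' (x y : Fin b → ZMod 2) : wt (x + y) ≤ wt x + wt y := wt_add_le x y

lemma size_le (hexp : ∀ y, wt y ≤ R → wt y ≤ 2 * wt (c y)) (hZ : Z.card ≤ 2 * W) {y : Rhs m}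
    (hy : wt y ≤ R) (h : wt (cut Z (c y)) ≤ 2 * W) : wt y ≤ 8 * W := by
  have h1 := hexp y hy
  have h2 := wt_le_cut Z (c y)
  omega

lemma wt_sub {x y z : Fin b → ZMod 2} (h : x + y = z) {W : ℕ} (hx : wt x ≤ W)
    (hy : wt y ≤ W) : wt z ≤ 2 * W := by
  rw [← h]
  have := wt_add_le' x y
  omega

open Classical in
/-- **The signs.** -/
theorem exists_s (hexp : ∀ y, wt y ≤ R → wt y ≤ 2 * wt (c y))
    (cadd : ∀ y y', c (y + y') = c y + c y') (hZ : Z.card ≤ 2 * W) (hR : 24 * W ≤ R) {e : Rhs m}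
    (he : ∀ y, wt y ≤ R → cut Z (c y) = 0 → (dotP (Fin m)).b e y = 0) :
    ∃ s : (Fin b → ZMod 2) → ZMod 2, ∀ y ψ, wt y ≤ R → wt ψ ≤ W →
      wt (ψ + cut Z (c y)) ≤ W → s (ψ + cut Z (c y)) = s ψ + (dotP (Fin m)).b e y := by
  have hself : ∀ x : Fin b → ZMod 2, x + x = 0 := (dotP (Fin b)).add_self
  have hc0 : c 0 = 0 := by
    have h1 := cadd 0 0
    rw [add_zero, hself] at h1
    exact h1
  obtain ⟨pr, hpr⟩ : ∃ pr : (Fin b → ZMod 2) → (Fin b → ZMod 2) → Prop, pr = fun ψ χ =>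
    wt χ ≤ W ∧ ∃ y : Rhs m, wt y ≤ 8 * W ∧ ψ + χ = cut Z (c y) := ⟨_, rfl⟩
  have hne : Nonempty (Fin b → ZMod 2) := ⟨0⟩
  obtain ⟨rep, hrep⟩ : ∃ rep : (Fin b → ZMod 2) → (Fin b → ZMod 2), rep = fun ψ =>
    Classical.epsilon (pr ψ) := ⟨_, rfl⟩
  have hspec : ∀ ψ, wt ψ ≤ W → pr ψ (rep ψ) := by
    intro ψ hψ
    rw [hrep]
    refine Classical.epsilon_spec ⟨ψ, ?_⟩
    rw [hpr]
    refine ⟨hψ, 0, ?_, ?_⟩
    · rw [ED.wt_zero]; omega
    · rw [hself, hc0, cut_zero]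
  have hne' : Nonempty (Rhs m) := ⟨0⟩
  obtain ⟨Y, hY⟩ : ∃ Y : (Fin b → ZMod 2) → Rhs m, Y = fun ψ =>
    Classical.epsilon (fun y : Rhs m => wt y ≤ 8 * W ∧ ψ + rep ψ = cut Z (c y)) := ⟨_, rfl⟩
  have hYs : ∀ ψ, wt ψ ≤ W → wt (Y ψ) ≤ 8 * W ∧ ψ + rep ψ = cut Z (c (Y ψ)) := by
    intro ψ hψ
    have h1 := hspec ψ hψ
    rw [hpr] at h1
    rw [hY]
    exact Classical.epsilon_spec h1.2
  refine ⟨fun ψ => (dotP (Fin m)).b e (Y ψ), fun y ψ hy hψ hψ' => ?_⟩
  obtain ⟨ψ', hψ'e⟩ : ∃ ψ', ψ' = ψ + cut Z (c y) := ⟨_, rfl⟩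
  rw [← hψ'e] at hψ' ⊢
  have hsum : ψ + ψ' = cut Z (c y) := by
    rw [hψ'e, ← add_assoc, hself, zero_add]
  have hyL0 : wt y ≤ 8 * W := size_le hexp hZ hy (wt_sub hsum hψ hψ')
  have step : ∀ (a a' χ : Fin b → ZMod 2), wt a' ≤ W → wt χ ≤ W →
      a + a' = cut Z (c y) → (∃ z : Rhs m, wt z ≤ 8 * W ∧ a + χ = cut Z (c z)) →
      ∃ z : Rhs m, wt z ≤ 8 * W ∧ a' + χ = cut Z (c z) := by
    rintro a a' χ ha' hχ haa ⟨z, hz, hz'⟩
    have h1 : a' + χ = cut Z (c (y + z)) := by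
      rw [cadd, cut_add, ← haa, ← hz']
      calc a' + χ = (a + a) + (a' + χ) := by rw [hself, zero_add]
        _ = _ := by abel
    refine ⟨y + z, ?_, h1⟩
    have h2 := wt_add_le y z
    exact size_le hexp hZ (by omega) (wt_sub h1 ha' hχ)
  have hpreq : pr ψ = pr ψ' := by
    funext χ
    rw [hpr]
    refine propext (and_congr_right fun hχ => ⟨fun h => ?_, fun h => ?_⟩)
    · exact step ψ ψ' χ hψ' hχ hsum h
    · exact step ψ' ψ χ hψ hχ (by rw [add_comm]; exact hsum) h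
  have hrepeq : rep ψ = rep ψ' := by rw [hrep]; exact congrArg _ hpreq
  obtain ⟨h1, h2⟩ := hYs ψ hψ
  obtain ⟨h1', h2'⟩ := hYs ψ' hψ'
  have h4 : cut Z (c (y + (Y ψ + Y ψ'))) = 0 := by
    rw [cadd, cut_add, cadd, cut_add, ← h2, ← h2', ← hsum, hrepeq]
    calc ψ + ψ' + (ψ + rep ψ' + (ψ' + rep ψ')) = (ψ + ψ) + (ψ' + ψ') + (rep ψ' + rep ψ') := by abel
      _ = 0 := by rw [hself, hself, hself, hself, add_zero]
  have h5 := wt_add_le y (Y ψ + Y ψ')
  have h6 := wt_add_le (Y ψ) (Y ψ')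
  have h7 := he _ (by omega) h4
  rw [(dotP (Fin m)).add_right, (dotP (Fin m)).add_right] at h7
  have h8 : ∀ a b c : ZMod 2, a + (b + c) = 0 → c = b + a := by decide
  exact h8 _ _ _ h7

end signs

end Pool.Agent.L5helper57.SE0
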