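import Pool.Agent.L5helper57.SE.Eng

/-!
# The values of the gates along a family of instances
-/

set_option autoImplicit false
set_option linter.unusedSectionVars false
set_option linter.unusedVariables false

namespace Pool.Agent.L5helper57.SE0

open Finset Matrix Pool.Agent.L5helper57.EP
open Pool.Agent.L5helper57.LB (Pen sk sk_zero sk_one sk_add sk_mul_self sum_sk RpK hatK hat_invK
  hat_mapK hat_shiftK SP card_blk_ne wt_boundK rot_bound cardne)
open Pool.Agent.L5helper57.ED (Rhs wt_zero)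
open Pool.Agent.L5helper57.LA0 (sp wtB_add_le)
open Pool.Agent.L5helper57.LB0 (eval_congr ann mem_ann ann_add card_ann_le mem_of_ann joint_support
  DepOn dep_supp sp_matrix)
open Pool.Agent.L5helper57.SI0 (gm val_eq sk_inj E_mul_P sum_E Sop Sop_mul_self Sop_sim)

variable {κ : Type} {K : κ → Type} [∀ q, Field (K q)] {ι : Type} {n r S N t D : ℕ}
variable {C : SI.Circuit K ι n r S N t D} {Γ : Type} [Group Γ] {π : Γ → ι → ι} (A : Act C π)
variable {b m : ℕ} (Bk : Blk Γ b)

/-- a family of instances -/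
structure Fam (π : Γ → ι → ι) (Bk : Blk Γ b) (x : Rhs m → ι → Bool)
    (c : Rhs m → Fin b → ZMod 2) (d : (Fin b → ZMod 2) → Rhs m) (R : ℕ) : Prop where
  tr : ∀ z w, (fun p => x w (π (Bk.tE (emb z)) p)) = x (w + d z)
  dual : ∀ y z, (dotP (Fin b)).b (c y) z = (dotP (Fin m)).b (d z) y
  cadd : ∀ y y', c (y + y') = c y + c y'
  exp : ∀ y, wt y ≤ R → wt y ≤ 2 * wt (c y)
  coord : ∀ p, ∃ l : Fin m, ∀ w w' : Rhs m, w l = w' l → x w p = x w' p

section poly

variable {k : Type} [Field k] {x : Rhs m → ι → Bool}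

/-- polynomials of bounded degree -/
lemma poly_sup (h2 : (2 : k) ≠ 0)
    (hx : ∀ p, ∃ l : Fin m, ∀ w w' : Rhs m, w l = w' l → x w p = x w' p)
    (p : MvPolynomial ι k) (hp : p.totalDegree ≤ D) :
    SP k (fun y : Rhs m => wt y ≤ D)
      (fun w => MvPolynomial.eval (fun i => if x w i then (1 : k) else 0) p) := by
  classical
  have h1 : (fun w => MvPolynomial.eval (fun i => if x w i then (1 : k) else 0) p) = fun w =>
      ∑ d ∈ p.support, p.coeff d * ∏ i ∈ d.support, (if x w i then (1 : k) else 0) ^ d i := by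
    funext w
    exact MvPolynomial.eval_eq _ _
  rw [h1]
  refine SP.sum _ fun d hd => ?_
  choose l hl using hx
  have h3 : DepOn (fun w => p.coeff d * ∏ i ∈ d.support, (if x w i then (1 : k) else 0) ^ d i)
      (d.support.image l) := fun w w' hw => by
    dsimp only
    congr 1
    refine prod_congr rfl fun i hi => ?_
    rw [hl i w w' (hw _ (mem_image_of_mem _ hi))]
  refine SP.mono (fun y hy => ?_) (dep_supp (K := k) h2 h3)
  have h4 : wt y = (sp y).card := rfl
  have h5 : (sp y).card ≤ (d.support.image l).card := card_le_card hy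
  have h6 : (d.support.image l).card ≤ d.support.card := card_image_le
  have h7 : d.support.card ≤ ∑ i ∈ d.support, d i := by
    rw [card_eq_sum_ones]
    exact sum_le_sum fun i hi => Nat.one_le_iff_ne_zero.2 (Finsupp.mem_support_iff.1 hi)
  have h8 : ∑ i ∈ d.support, d i ≤ D := (MvPolynomial.le_totalDegree hd).trans hp
  omega

/-- functions which are invariant under the annihilator of `Y` -/
lemma inv_sup (h2 : (2 : k) ≠ 0) {V : Type*} [AddCommGroup V] [Module k V] {G : Rhs m → V}
    {Y : AddSubgroup (Rhs m)}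
    (h : ∀ w e, (∀ y ∈ Y, (dotP (Fin m)).b e y = 0) → G (w + e) = G w) :
    SP k (fun y => y ∈ Y) G := by
  intro y hy
  by_contra hne
  apply hy
  refine mem_of_ann (dotP (Fin m)) Y fun e he => ?_
  rw [mem_ann] at he
  have h1 := hat_shiftK (K := k) G G e (fun w => (h w e he).symm) y
  rcases z2_cases ((dotP (Fin m)).b e y) with h3 | h3
  · exact h3
  · exfalso
    rw [h3, sk_one, neg_smul, one_smul] at h1
    have h4 : (2 : k) • hatK k G y = 0 := by
      rw [two_smul]
      nth_rewrite 1 [h1]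
      exact neg_add_cancel _
    exact hne ((smul_eq_zero.1 h4).resolve_left h2)

end poly

variable {x : Rhs m → ι → Bool} {c : Rhs m → Fin b → ZMod 2} {d : (Fin b → ZMod 2) → Rhs m}
  {R W : ℕ}

/-- the hypotheses -/
structure Hy (S N D : ℕ) (K : κ → Type) [∀ q, Field (K q)] (R W : ℕ) : Prop where
  h2 : ∀ q, (2 : K q) ≠ 0
  hD : D ≤ R
  hR : 24 * W ≤ R
  hSS : S * S < 3 ^ (W + 1)
  hSN : S * N < 3 ^ (W + 1)

/-- the small sets of equations whose boundary is in `Z` -/
def small (hF : Fam π Bk x c d R) {Z : Finset (Fin b)} (hZ : 4 * Z.card ≤ R) :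
    AddSubgroup (Rhs m) where
  carrier := {y | wt y ≤ R ∧ cut Z (c y) = 0}
  add_mem' := by
    rintro y y' ⟨h1, h2⟩ ⟨h3, h4⟩
    refine ⟨?_, by rw [hF.cadd, cut_add, h2, h4, add_zero]⟩
    have e1 := hF.exp y h1
    have e2 := wt_le_cut Z (c y)
    have e3 := hF.exp y' h3
    have e4 := wt_le_cut Z (c y')
    rw [h2, ED.wt_zero] at e2
    rw [h4, ED.wt_zero] at e4
    have e5 := wt_add_le y y'
    omega
  zero_mem' := by
    have hc0 : c 0 = 0 := by
      have h1 := hF.cadd 0 0
      rw [add_zero, (dotP (Fin b)).add_self] at h1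
      exact h1
    refine ⟨?_, by rw [hc0, cut_zero]⟩
    rw [ED.wt_zero]
    exact Nat.zero_le _
  neg_mem' := by
    intro y h
    rw [(dotP (Fin m)).neg_eq y]
    exact h

variable (H : Hy S N D K R W) (hF : Fam π Bk x c d R)

/-- the value of the gate depends on few combinations of the right hand sides -/
def InvG (C : SI.Circuit K ι n r S N t D) (x : Rhs m → ι → Bool) (W : ℕ) (i : Fin S) : Prop :=
  ∃ Y : AddSubgroup (Rhs m), (∀ y ∈ Y, wt y ≤ 4 * W) ∧
    ∀ w e, (∀ y ∈ Y, (dotP (Fin m)).b e y = 0) → C.val (x (w + e)) i = C.val (x w) i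

include H hF in
/-- evaluation of a matrix along the instances -/
lemma eval_sup {q : κ} {M : Pen ι (K q) S N}
    (hM : ∀ i j, (M.inp i j).totalDegree ≤ D)
    (hw : ∀ i, M.wire i ≠ 0 → InvG C x W i) :
    SP (K q) (fun y : Rhs m => wt y ≤ R) (fun w => M.eval (x w) (C.val (x w))) := by
  have hD := H.hD
  have hR := H.hR
  have h1 : SP (K q) (fun y : Rhs m => wt y ≤ R) (fun w => M.inp.map (MvPolynomial.eval
      fun i => if x w i then (1 : K q) else 0)) :=
    sp_matrix fun i j => SP.mono (fun y hy => hy.trans hD)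
      (poly_sup (H.h2 q) hF.coord (M.inp i j) (hM i j))
  have h2 : SP (K q) (fun y : Rhs m => wt y ≤ R)
      (fun w => ∑ i, if C.val (x w) i then M.wire i else 0) := by
    refine SP.sum univ fun i _ => ?_
    by_cases hi : M.wire i = 0
    · rw [hi]
      simp only [ite_self]
      exact SP.zero
    · obtain ⟨Y, hY, hinv⟩ := hw i hi
      refine SP.mono (fun y hy => ?_) (inv_sup (k := K q) (H.h2 q) (Y := Y)
        (G := fun w => if C.val (x w) i then M.wire i else 0) fun w e he => ?_)
      · have := hY y hy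
        omega
      · rw [hinv w e he]
  unfold Pen.eval
  exact SP.add h1 h2

include H in
/-- **A gate with a known support.** -/
lemma gate_inv {o : Fin S} {Z : Finset (Fin b)} (hZc : Z.card ≤ 2 * W)
    (hg : ∀ T : Fin b → K4, (∀ β ∈ Z, T β = 0) → A.σ (Bk.tE T) o = o)
    (hw : ∀ q a, SP (K q) (fun y : Rhs m => wt y ≤ R) (fun w => gm C q o (x w) a))
    (hF : Fam π Bk x c d R) {w e : Rhs m}
    (he : ∀ y, wt y ≤ R → cut Z (c y) = 0 → (dotP (Fin m)).b e y = 0) :
    C.val (x (w + e)) o = C.val (x w) o := by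
  obtain ⟨s, hs⟩ := exists_s hF.exp hF.cadd hZc H.hR he
  rw [val_eq, val_eq]
  refine C.similar o _ _ fun q => ?_
  have h2 := H.h2 q
  obtain ⟨φ, hφ⟩ : ∃ φ : Matrix (Fin N) (Fin N) (K q) ≃ₐ[K q] Module.End (K q) (Fin N → K q),
    φ = Matrix.toLinAlgEquiv' := ⟨_, rfl⟩
  have hwt : ∀ ψ, (locRp A Bk q hg).E (dotP (Fin b)) ψ ≠ 0 → wt ψ ≤ W := by
    intro ψ hψ
    have h3 := loc_wt A Bk q hg h2 hψ
    have h4 := (Nat.pow_lt_pow_iff_right (by norm_num : 1 < 3)).1 (h3.trans_lt H.hSN)
    omega
  obtain ⟨X, hX⟩ : ∃ X, X = Sop (locRp A Bk q hg) (dotP (Fin b)) s := ⟨_, rfl⟩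
  have hXX : X * X = 1 := by
    rw [hX]
    exact Sop_mul_self _ _ h2 (cardne h2) s
  refine ⟨φ.symm X, φ.symm X, ?_, fun a => ?_⟩
  · rw [← map_mul, hXX, map_one]
  · have hrel : ∀ (z : Fin b → ZMod 2) (w : Rhs m), φ (gm C q o (x w) a) *
        (locRp A Bk q hg).P z = (locRp A Bk q hg).P z *
          φ (gm C q o (x (w + d (cut Z z))) a) := by
      intro z w
      rw [locRp_P, ← hφ, ← map_mul, ← map_mul]
      congr 1
      have h3 := gm_aut A q (Bk.tE (emb (cut Z z))) o (x w) a
      rw [hg _ (cut_mem Z z), hF.tr] at h3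
      exact h3
    have hsim := Sop_sim (locRp A Bk q hg) (dotP (Fin b))
      (mb := fun w => φ (gm C q o (x w) a)) (d := fun z => d (cut Z z))
      (c := fun y => cut Z (c y)) h2 (fun y z => by rw [cut_dot, hF.dual]) hrel
      (s := s) (e := e) (fun y ψ hy hψ hψ' => by
        refine hs y ψ ?_ (hwt ψ hψ) (hwt _ hψ')
        by_contra hcon
        apply hy
        have h3 := SP.map φ.toLinearMap (hw q a)
        exact h3 y hcon) w
    rw [← hX] at hsim
    apply φ.injective
    rw [map_mul, map_mul, AlgEquiv.apply_symm_apply, hsim, mul_assoc, hXX, mul_one]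

include A H hF in
/-- **All gates depend on few combinations of the right hand sides.** -/
theorem all_gates (g : Fin S) : InvG C x W g ∧
    ∀ q a, SP (K q) (fun y : Rhs m => wt y ≤ R) (fun w => gm C q g (x w) a) := by
  induction g using WellFoundedLT.induction with
  | ind g ih =>
    have hw : ∀ q a, SP (K q) (fun y : Rhs m => wt y ≤ R) (fun w => gm C q g (x w) a) :=
      fun q a => eval_sup Bk H hF (C.deg q g a) fun j hj => (ih j (C.acyclic q g a j hj)).1
    refine ⟨?_, hw⟩
    obtain ⟨Z, hZ1, hZ2⟩ := exists_support A Bk H.hSS g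
    have hR := H.hR
    refine ⟨small Bk hF (Z := Z) (by omega), fun y hy => ?_, fun w e he => ?_⟩
    · obtain ⟨h1, h2⟩ := hy
      have e1 := hF.exp y h1
      have e2 := wt_le_cut Z (c y)
      rw [h2, ED.wt_zero] at e2
      omega
    · exact gate_inv A Bk H hZ1 hZ2 hw hF fun y h1 h2 => he y ⟨h1, h2⟩

include A H hF in
/-- **The value of a gate which is fixed by all translations does not depend on the right hand
side.** -/
theorem out_const {o : Fin S} (ho : ∀ T, A.σ (Bk.tE T) o = o) (w w' : Rhs m) :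
    C.val (x w) o = C.val (x w') o := by
  have h1 : w = w' + (w' + w) := by
    rw [← add_assoc, (dotP (Fin m)).add_self, zero_add]
  rw [h1]
  refine gate_inv A Bk H (Z := ∅) (by rw [card_empty]; omega) (fun T _ => ho T)
    (all_gates A Bk H hF o).2 hF fun y h2 h3 => ?_
  have e1 := hF.exp y h2
  have e2 := wt_le_cut ∅ (c y)
  rw [h3, ED.wt_zero, card_empty] at e2
  have h4 : y = 0 := ED.eq_zero_of_wt (by omega)
  rw [h4, (dotP (Fin m)).zero_right]

end Pool.Agent.L5helper57.SE0
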