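import Pool.Agent.L5helper57.SE.Defs
import Pool.Agent.L5helper57.SE.Gate
import Pool.Agent.L5helper57.ED.Final

/-!
# Circuits for 3-CNF formulas: the main theorem
-/

set_option autoImplicit false
set_option linter.unusedSectionVars false
set_option linter.unusedVariables false

namespace Pool.Agent.L5helper57.SE0

open Finset Matrix Pool.Agent.L5helper57.EP Pool.Agent.L5helper42.Sym

open Pool.Agent.L5helper57.ED (Rhs dT dTt dual expand inst_coord inst_tr pairs exists_instance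
  rename_mul rename_one' gen_tr Fml satAct)
open Pool.Agent.L5helper57.SE (blockGroup)

variable {κ : Type} {K : κ → Type} [∀ q, Field (K q)] {v s S N t D : ℕ}

/-- the circuit with trivial further outputs -/
noncomputable def toSI (C : SE.Circuit K v S N t D) :
    SI.Circuit K (ETH.Clause v) 0 0 S N t D where
  gate := C.gate
  fn := C.fn
  letter := fun i => i.elim0
  bit := fun i => i.elim0
  similar := C.similar
  acyclic := C.acyclic
  deg := C.deg

lemma val_toSI (C : SE.Circuit K v S N t D) (F : ETH.Clause v → Bool) (h : Fin S) :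
    (toSI C).val F h = C.val F h := by
  induction h using WellFoundedLT.induction with
  | ind h ih =>
    rw [SI.Circuit.val, SE.Circuit.val]
    refine congrArg (C.fn h) (funext fun q => funext fun a => ?_)
    have h1 : (fun h' => if _h : h' < h then (toSI C).val F h' else false) =
        fun h' => if _h : h' < h then C.val F h' else false := by
      funext h'
      split_ifs with hh
      · exact ih h' hh
      · rfl
    rw [h1]
    rfl

/-- the action of the group on the clauses -/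
def cact (B : Fin s → Finset (Fin v)) (g : blockGroup B) (c : ETH.Clause v) : ETH.Clause v :=
  ETH.renameClause g.1 c

lemma exists_act {C : SE.Circuit K v S N t D} {B : Fin s → Finset (Fin v)} (h : C.Acts B) :
    ∃ A : Act (toSI C) (cact B), ∀ ρ, A.σ ρ C.out = C.out := by
  obtain ⟨σ, U, h1, h2, h3⟩ := h
  have hone : σ 1 = 1 := by
    have h4 := (h2 1 (blockGroup B).one_mem 1 (blockGroup B).one_mem).1
    rw [mul_one] at h4
    exact left_eq_mul.1 h4
  exact ⟨{
    σ := ⟨⟨fun ρ => σ ρ.1, hone⟩, fun ρ ρ' => (h2 ρ.1 ρ.2 ρ'.1 ρ'.2).1⟩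
    U := fun q ρ h => U q ρ.1 h
    U_one := fun q h => h3 q h
    U_mul := fun q ρ ρ' h => (h2 ρ.1 ρ.2 ρ'.1 ρ'.2).2 q h
    fn_eq := fun ρ h => (h1 ρ.1 ρ.2).1 h
    gate_eq := fun q ρ h a x y => (h1 ρ.1 ρ.2).2.1 q h a x y }, fun ρ => (h1 ρ.1 ρ.2).2.2⟩

section blocks

variable {B : Fin s → Finset (Fin v)} (f : Fin s × K4 ↪ Fin v) (hf : ∀ j, blk f j = B j)
include hf

lemma mem_cyc {π : Equiv.Perm (Fin v)} (h : π.IsThreeCycle) {j : Fin s}
    (hj : ∀ i, i ∉ blk f j → π i = i) : π ∈ blockGroup B :=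
  Subgroup.subset_closure ⟨h, j, by rwa [hf] at hj⟩

lemma mem_rho (β : Fin s) : via f (rhoB β) ∈ blockGroup B :=
  mem_cyc f hf (rho_three f β) fun i hi => rho_moves f β hi

lemma mem_tr (T : Fin s → K4) : via f (trB T) ∈ blockGroup B :=
  gen_tr f (p := fun π => π ∈ blockGroup B) (blockGroup B).one_mem
    (fun a b ha hb => (blockGroup B).mul_mem ha hb) (mem_rho f hf)
    (fun β => (blockGroup B).inv_mem (mem_rho f hf β))
    (fun β => mem_cyc f hf (rho2_three f β) fun i hi => rho2_moves f β hi) T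

end blocks

/-- the translations and rotations -/
noncomputable def blkG {B : Fin s → Finset (Fin v)} (f : Fin s × K4 ↪ Fin v)
    (hf : ∀ j, blk f j = B j) : Blk (blockGroup B) s where
  tE T := ⟨via f (trB T), mem_tr f hf T⟩
  rE β := ⟨via f (rhoB β), mem_rho f hf β⟩
  zero := Subtype.ext (by
    show via f (trB 0) = 1
    rw [trB_zero, map_one])
  add T T' := Subtype.ext (by
    show via f (trB (T + T')) = via f (trB T) * via f (trB T')
    rw [trB_add, map_mul])
  conj β T := Subtype.ext (by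
    show via f (rhoB β) * via f (trB T) = via f (trB (tauB β T)) * via f (rhoB β)
    rw [← map_mul, ← map_mul, rhoB_trB])

lemma dTt_add {m : ℕ} (E : Fin m → (Fin 3 ↪ Fin s)) (y y' : Rhs m) :
    dTt E (y + y') = dTt E y + dTt E y' := by
  funext i
  rw [Pi.add_apply]
  unfold dTt
  rw [← sum_add_distrib]
  refine sum_congr rfl fun e _ => ?_
  split_ifs
  · rfl
  · rw [add_zero]

/-- the instances -/
lemma fam {B : Fin s → Finset (Fin v)} (f : Fin s × K4 ↪ Fin v) (hf : ∀ j, blk f j = B j)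
    {m r : ℕ} (E : Fin m → (Fin 3 ↪ Fin s)) (hE : Expanding E r) (hr : 2 ≤ r) (hm : 0 < m) :
    Fam (cact B) (blkG f hf) (fun w => inst E (pairs f) w) (dTt E) (dT E) r where
  tr z w := inst_tr f E z w
  dual y z := by rw [(dotP (Fin s)).symm, ← dual]
  cadd := dTt_add E
  exp y hy := expand hE hy
  coord p := inst_coord hE hr hm p

/-- **The main theorem.** -/
theorem main (δ : ℝ) (hδ : 0 < δ) : ∃ c : ℝ, 0 < c ∧
    ∀ (v s S N t D : ℕ) (B : Fin s → Finset (Fin v)), (∀ j, (B j).card = 4) →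
    (∀ i j, i ≠ j → Disjoint (B i) (B j)) →
    ∀ (κ : Type) (K : κ → Type) [∀ q, Field (K q)], (∀ q, (2 : K q) ≠ 0) →
    ∀ C : SE.Circuit K v S N t D, C.Acts B →
    (∀ F G, ETH.Satisfiable F → ETH.Far δ G → C.output F ≠ C.output G) →
    (s : ℝ) < c * (1 + D + Real.logb 2 ((S + 1) * (N + 1))) := by
  obtain ⟨K0, hK0, hinst⟩ := exists_instance δ hδ
  refine ⟨48 * K0, by positivity, fun v s S N t D B hB hdisj κ K _ h2 C hA hsep => ?_⟩
  by_contra hcon
  push Not at hcon
  have hD0 : (0 : ℝ) ≤ D := Nat.cast_nonneg D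
  obtain ⟨n, hn⟩ : ∃ n, n = (S + 1) * (N + 1) := ⟨_, rfl⟩
  have hcast : ((S : ℝ) + 1) * (N + 1) = (n : ℝ) := by rw [hn]; push_cast; ring
  rw [hcast] at hcon
  have hn1 : 1 ≤ n := by rw [hn]; exact Nat.mul_pos (by omega) (by omega)
  have hn1' : (1 : ℝ) ≤ n := by exact_mod_cast hn1
  have hl0 : 0 ≤ Real.logb 2 (n : ℝ) := Real.logb_nonneg (by norm_num) hn1'
  have hl : (Nat.log 2 n : ℝ) ≤ Real.logb 2 (n : ℝ) := by
    rw [Real.le_logb_iff_rpow_le (by norm_num) (by linarith), Real.rpow_natCast]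
    exact_mod_cast Nat.pow_log_le_self 2 (by omega)
  obtain ⟨f, hf⟩ := exists_emb B hB hdisj
  have hsK : K0 ≤ s := by nlinarith
  obtain ⟨m, E, r, b, hm, hr, hsr, hE, hsat, hfar⟩ := hinst v s f hsK
  have h48 : 48 * (1 + (D : ℝ) + Real.logb 2 n) ≤ r := by
    have h1 : K0 * (48 * (1 + (D : ℝ) + Real.logb 2 n)) ≤ K0 * r := by
      calc K0 * (48 * (1 + (D : ℝ) + Real.logb 2 n)) = 48 * K0 * (1 + D + Real.logb 2 n) := by
            ring
        _ ≤ s := hcon
        _ ≤ K0 * r := hsr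
    exact le_of_mul_le_mul_left h1 hK0
  obtain ⟨W, hWdef⟩ : ∃ W, W = 2 * Nat.log 2 n + 1 := ⟨_, rfl⟩
  have hWr : 24 * W ≤ r := by
    have : ((24 * W : ℕ) : ℝ) ≤ r := by
      rw [hWdef]
      push_cast
      linarith
    exact_mod_cast this
  have hDr : D ≤ r := by
    have : (D : ℝ) ≤ r := by linarith
    exact_mod_cast this
  have hW : n ^ 2 < 3 ^ (W + 1) := by
    have h1 : n < 2 ^ (Nat.log 2 n + 1) := Nat.lt_pow_succ_log_self (by norm_num) n
    have h2 : 2 ^ (Nat.log 2 n + 1) ≤ 3 ^ (Nat.log 2 n + 1) :=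
      Nat.pow_le_pow_left (by norm_num) _
    calc n ^ 2 < (3 ^ (Nat.log 2 n + 1)) ^ 2 :=
          Nat.pow_lt_pow_left (h1.trans_le h2) (by norm_num)
      _ = 3 ^ (W + 1) := by rw [hWdef, ← pow_mul]; congr 1; ring
  have hSN : S * N ≤ n ^ 2 := by
    rw [hn, mul_pow]
    have h1 : S ≤ (S + 1) ^ 2 := by nlinarith
    have h2 : N ≤ (N + 1) ^ 2 := by nlinarith
    exact Nat.mul_le_mul h1 h2
  have hSS : S * S ≤ n ^ 2 := by
    rw [hn, mul_pow]
    have h1 : S * S ≤ (S + 1) ^ 2 := by nlinarith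
    calc S * S = S * S * 1 := (mul_one _).symm
      _ ≤ (S + 1) ^ 2 * (N + 1) ^ 2 := Nat.mul_le_mul h1 (Nat.one_le_pow _ _ (by omega))
  have H : Hy S N D K r W := ⟨h2, hDr, hWr, by omega, by omega⟩
  obtain ⟨A, hout⟩ := exists_act hA
  have h1 := out_const A (blkG f hf) H (fam f hf E hE hr hm) (o := C.out)
    (fun T => hout _) 0 b
  refine hsep _ _ hsat hfar ?_
  unfold SE.Circuit.output
  rw [← val_toSI, ← val_toSI]
  exact h1

end Pool.Agent.L5helper57.SE0
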